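import Mathlib

namespace Pool.Agent.Results.MP_98930f_lc.No

open Finset

def Visits {d : ℕ} (p v x : Fin d → ℤ) : Prop :=
  (fun k => (x k : ℝ)) ∈ segment ℝ (fun k => ((p k - v k : ℤ) : ℝ)) (fun k => (p k : ℝ))

def Feasible {d n : ℕ} (x : Fin (n + 1) → Fin d → ℤ) (l : ℕ) (p v : ℕ → Fin d → ℤ) : Prop :=
  (∀ i < l, v (i + 1) = p (i + 1) - p i ∧ ∀ k, |v (i + 1) k - v i k| ≤ 1) ∧
  p 0 = x 0 ∧ v 0 = 0 ∧ p l = x (Fin.last n) ∧ v l = 0 ∧
  ∃ ι : Fin (n + 1) → ℕ, Monotone ι ∧ ∀ j, ι j ≤ l ∧ Visits (p (ι j)) (v (ι j)) (x j)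

def Optimal {d n : ℕ} (x : Fin (n + 1) → Fin d → ℤ) (l : ℕ) (p v : ℕ → Fin d → ℤ) : Prop :=
  Feasible x l p v ∧ ∀ l' p' v', Feasible x l' p' v' → l ≤ l'

lemma one (l : ℕ) (p v : ℕ → ℤ) (hl : l ≤ 37)
    (h : ∀ i < l, v (i + 1) = p (i + 1) - p i ∧ |v (i + 1) - v i| ≤ 1) (v0 : v 0 = 0)
    (vl : v l = 0) (cap : ∀ i ≤ l, |v i| ≤ 12) (tot : p l = p 0 + 141) :
    (∀ i ≤ 18, i ≤ l → p i < p 0 + 141) ∧ (∀ i, 18 ≤ i → i ≤ l → p 0 < p i) := by
  have lip0 : ∀ a d : ℕ, a + d ≤ l → |v (a + d) - v a| ≤ d := by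
    intro a d
    induction d with
    | zero => simp
    | succ d ih =>
      intro hd
      have h1 := abs_le.1 (h (a + d) (by omega)).2
      have h2 := abs_le.1 (ih (by omega))
      rw [← add_assoc, abs_le]
      push_cast
      omega
  have lip : ∀ a b : ℕ, a ≤ b → b ≤ l → v b - v a ≤ (b : ℤ) - a ∧ v a - v b ≤ (b : ℤ) - a := by
    intro a b hab hb
    obtain ⟨d, rfl⟩ := Nat.exists_eq_add_of_le hab
    have := abs_le.1 (lip0 a d hb)
    push_cast
    omega
  have sm : ∀ a d : ℕ, a + d ≤ l → p (a + d) = p a + ∑ j ∈ range d, v (a + j + 1) := by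
    intro a d
    induction d with
    | zero => simp
    | succ d ih =>
      intro hd
      rw [sum_range_succ, ← add_assoc, ← add_assoc, ← ih (by omega), (h (a + d) (by omega)).1]
      ring
  have cp : ∀ i ≤ l, v i ≤ 12 := fun i hi => (abs_le.1 (cap i hi)).2
  constructor
  · intro i hi hil
    by_contra hc
    have e := sm 0 i (by omega)
    simp only [zero_add] at e
    by_cases h18 : i = 18
    · subst h18
      by_cases hw : v 18 ≤ 8
      · have : ∑ j ∈ range 18, v (j + 1) ≤
            ∑ j ∈ range 18, min (min ((j : ℤ) + 1) 12) (25 - j) := by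
          refine sum_le_sum fun j hj => ?_
          have hj := mem_range.1 hj
          have a := lip 0 (j + 1) (by omega) (by omega)
          have b := lip (j + 1) 18 (by omega) hil
          have c := cp (j + 1) (by omega)
          push_cast at a b
          omega
        have z : ∑ j ∈ range 18, min (min ((j : ℤ) + 1) 12) (25 - j) = 140 := by decide +kernel
        omega
      · obtain ⟨d, rfl⟩ := Nat.exists_eq_add_of_le hil
        have e2 := sm 18 d le_rfl
        have a0 := lip 18 (18 + d) (by omega) le_rfl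
        push_cast at a0
        have : ∑ j ∈ range d, max (8 - (j : ℤ)) (j + 1 - d) ≤ ∑ j ∈ range d, v (18 + j + 1) := by
          refine sum_le_sum fun j hj => ?_
          have hj := mem_range.1 hj
          have a := lip 18 (18 + j + 1) (by omega) (by omega)
          have b := lip (18 + j + 1) (18 + d) (by omega) le_rfl
          push_cast at a b
          omega
        have z : ∀ d < 20, 9 ≤ d → 0 < ∑ j ∈ range d, max (8 - (j : ℤ)) (j + 1 - (d : ℕ)) := by
          decide +kernel
        have := z d (by omega) (by omega)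
        omega
    · have : ∑ j ∈ range i, v (j + 1) ≤ ∑ j ∈ range i, min ((j : ℤ) + 1) 12 := by
        refine sum_le_sum fun j hj => ?_
        have hj := mem_range.1 hj
        have a := lip 0 (j + 1) (by omega) (by omega)
        have c := cp (j + 1) (by omega)
        push_cast at a
        omega
      have z : ∀ i < 18, ∑ j ∈ range i, min ((j : ℤ) + 1) 12 < 141 := by decide +kernel
      have := z i (by omega)
      omega
  · intro i hi hil
    by_contra hc
    obtain ⟨d, rfl⟩ := Nat.exists_eq_add_of_le hil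
    have e := sm i d le_rfl
    by_cases h19 : d = 19
    · obtain rfl : i = 18 := by omega
      subst h19
      by_cases hw : v 19 ≤ 8
      · have : ∑ j ∈ range 19, v (18 + j + 1) ≤
            ∑ j ∈ range 19, min (min (18 - (j : ℤ)) 12) (8 + j) := by
          refine sum_le_sum fun j hj => ?_
          have hj := mem_range.1 hj
          have a := lip 19 (18 + j + 1) (by omega) (by omega)
          have b := lip (18 + j + 1) (18 + 19) (by omega) le_rfl
          have c := cp (18 + j + 1) (by omega)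
          push_cast at a b vl
          omega
        have z : ∑ j ∈ range 19, min (min (18 - (j : ℤ)) 12) (8 + j) = 140 := by decide +kernel
        omega
      · have e2 := sm 0 18 (by omega)
        simp only [zero_add] at e2
        have : ∑ j ∈ range 18, max (-((j : ℤ) + 1)) (j - 9) ≤ ∑ j ∈ range 18, v (j + 1) := by
          refine sum_le_sum fun j hj => ?_
          have hj := mem_range.1 hj
          have a := lip 0 (j + 1) (by omega) (by omega)
          have b := lip (j + 1) 19 (by omega) (by omega)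
          push_cast at a b
          omega
        have z : ∑ j ∈ range 18, max (-((j : ℤ) + 1)) (j - 9) = 11 := by decide +kernel
        omega
    · have : ∑ j ∈ range d, v (i + j + 1) ≤ ∑ j ∈ range d, min ((d : ℤ) - j - 1) 12 := by
        refine sum_le_sum fun j hj => ?_
        have hj := mem_range.1 hj
        have a := lip (i + j + 1) (i + d) (by omega) le_rfl
        have c := cp (i + j + 1) (by omega)
        push_cast at a
        omega
      have z : ∀ d < 19, ∑ j ∈ range d, min (((d : ℕ) : ℤ) - j - 1) 12 < 141 := by decide +kernel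
      have := z d (by omega)
      omega

def X : Fin 3 → Fin 2 → ℤ := ![![0, 0], ![141, 0], ![141, 141]]

def px : List ℤ := [0, 1, 3, 6, 10, 15, 21, 28, 36, 45, 55, 66, 78, 91, 103, 114, 124, 133, 141,
  148, 154, 159, 163, 166, 168, 169, 169, 168, 166, 163, 160, 156, 151, 147, 144, 142, 141, 141]

def vx : List ℤ := [0, 1, 2, 3, 4, 5, 6, 7, 8, 9, 10, 11, 12, 13, 12, 11, 10, 9, 8, 7, 6, 5, 4,
  3, 2, 1, 0, -1, -2, -3, -3, -4, -5, -4, -3, -2, -1, 0]

def py : List ℤ := [0, -1, -3, -6, -9, -13, -18, -22, -25, -27, -28, -28, -27, -25, -22, -18, -13,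
  -7, 0, 8, 17, 27, 38, 50, 63, 75, 86, 96, 105, 113, 120, 126, 131, 135, 138, 140, 141, 141]

def vy : List ℤ := [0, -1, -2, -3, -3, -4, -5, -4, -3, -2, -1, 0, 1, 2, 3, 4, 5, 6, 7, 8, 9, 10,
  11, 12, 13, 12, 11, 10, 9, 8, 7, 6, 5, 4, 3, 2, 1, 0]

lemma vis {d : ℕ} (p v x : Fin d → ℤ) (h : p = x) : Visits p v x := by
  subst h
  exact right_mem_segment _ _ _

lemma fast : Feasible X 37 (fun i => ![px.getD i 0, py.getD i 0])
    (fun i => ![vx.getD i 0, vy.getD i 0]) := by
  refine ⟨by decide +kernel, by decide +kernel, by decide +kernel, by decide +kernel,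
    by decide +kernel, ![0, 18, 37], by decide +kernel, fun j => ⟨?_, vis _ _ _ ?_⟩⟩
  · revert j; decide +kernel
  · revert j; decide +kernel

lemma between {d : ℕ} (p v x : Fin d → ℤ) (h : Visits p v x) (k : Fin d) :
    (p k - v k ≤ x k ∨ p k ≤ x k) ∧ (x k ≤ p k - v k ∨ x k ≤ p k) := by
  obtain ⟨a, b, ha, hb, hab, e⟩ := h
  have e := congrFun e k
  simp only [Pi.add_apply, Pi.smul_apply, smul_eq_mul] at e
  have hb' : b = 1 - a := by linarith
  subst hb'
  constructor
  · by_contra hc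
    push Not at hc
    have h1 : (x k : ℝ) < ((p k - v k : ℤ) : ℝ) := by exact_mod_cast hc.1
    have h2 : (x k : ℝ) < (p k : ℝ) := by exact_mod_cast hc.2
    nlinarith [mul_nonneg ha (sub_pos.2 h1).le, mul_nonneg hb (sub_pos.2 h2).le,
      le_total a (1 / 2)]
  · by_contra hc
    push Not at hc
    have h1 : ((p k - v k : ℤ) : ℝ) < (x k : ℝ) := by exact_mod_cast hc.1
    have h2 : (p k : ℝ) < (x k : ℝ) := by exact_mod_cast hc.2
    nlinarith [mul_nonneg ha (sub_pos.2 h1).le, mul_nonneg hb (sub_pos.2 h2).le,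
      le_total a (1 / 2)]

lemma slow (l : ℕ) (p v : ℕ → Fin 2 → ℤ) (hl : l ≤ 37) (h : Feasible X l p v) :
    ∃ i ≤ l, ∃ k, 13 ≤ |v i k| := by
  by_contra hc
  push Not at hc
  obtain ⟨h1, p0, v0, pl, vl, ι, -, hι⟩ := h
  have o : ∀ k, _ := fun k => one l (fun i => p i k) (fun i => v i k) hl
    (fun i hi => ⟨by rw [(h1 i hi).1]; rfl, (h1 i hi).2 k⟩) (by rw [v0]; rfl) (by rw [vl]; rfl)
    (fun i hi => by have := hc i hi k; omega)
    (by rw [p0, pl]; revert k; decide +kernel)
  obtain ⟨hi, hv⟩ := hι 1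
  have b0 := (between _ _ _ hv 0).2
  have b1 := (between _ _ _ hv 1).1
  have x0 : X 1 0 = 141 := rfl
  have x1 : X 1 1 = 0 := rfl
  have q0 : p 0 0 = 0 := by rw [p0]; rfl
  have q1 : p 0 1 = 0 := by rw [p0]; rfl
  generalize ι 1 = i at *
  have A := (o 0).1
  have B := (o 1).2
  simp only [q0, q1] at A B
  rcases i with _ | i
  · have : v 0 0 = 0 := by rw [v0]; rfl
    omega
  · have e0 : v (i + 1) 0 = p (i + 1) 0 - p i 0 := by rw [(h1 i (by omega)).1]; rfl
    have e1 : v (i + 1) 1 = p (i + 1) 1 - p i 1 := by rw [(h1 i (by omega)).1]; rfl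
    by_cases h18 : i + 1 ≤ 18
    · have := A (i + 1) h18 hi
      have := A i (by omega) (by omega)
      omega
    · have := B (i + 1) (by omega) hi
      have := B i (by omega) (by omega)
      omega

theorem result : ∃ (d n : ℕ) (x : Fin (n + 1) → Fin d → ℤ) (L : ℤ), 1 ≤ d ∧
    IsGreatest {t | ∃ j j' k, t = |x j k - x j' k|} L ∧ (∃ l p v, Optimal x l p v) ∧
    ∀ l p v, Optimal x l p v → ∃ i ≤ l, ∃ k, √(L : ℝ) + 1 < ((|v i k| : ℤ) : ℝ) := by
  classical
  refine ⟨2, 2, X, 141, by norm_num, ⟨⟨1, 0, 0, by decide⟩, ?_⟩, ?_, fun l p v h => ?_⟩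
  · rintro t ⟨j, j', k, rfl⟩
    revert j j' k
    decide +kernel
  · have ex : ∃ l, ∃ p v, Feasible X l p v := ⟨37, _, _, fast⟩
    obtain ⟨p, v, h⟩ := Nat.find_spec ex
    exact ⟨_, p, v, h, fun l' p' v' h' => Nat.find_min' ex ⟨p', v', h'⟩⟩
  · obtain ⟨i, hi, k, hk⟩ := slow l p v (h.2 _ _ _ fast) h.1
    refine ⟨i, hi, k, ?_⟩
    have a : ((13 : ℤ) : ℝ) ≤ ((|v i k| : ℤ) : ℝ) := by exact_mod_cast hk
    have b : √((141 : ℤ) : ℝ) < 12 := by
      rw [Real.sqrt_lt' (by norm_num)]
      norm_num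
    push_cast at a b ⊢
    linarith

end Pool.Agent.Results.MP_98930f_lc.No
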